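import Mathlib

namespace Pool.Agent.Results.MP_a94181_al.SmallAut

abbrev E (n : ℕ) := {p : Fin n × Fin n // p.1.val + 1 < p.2.val}

@[ext] structure G (n m : ℕ) where
  e : Bool
  v : Fin n → ZMod (2^m)
  z : E n → ZMod (2^m)

variable {n m : ℕ}

def s (m : ℕ) (b : Bool) : ZMod (2^m) := if b then -1 else 1

lemma s_xor (a b : Bool) : s m (xor a b) = s m a * s m b := by
  cases a <;> cases b <;> simp [s]

lemma s_sq (a : Bool) : s m a * s m a = 1 := by cases a <;> simp [s]

instance : Mul (G n m) := ⟨fun g h => ⟨xor g.e h.e, fun i => g.v i + s m g.e * h.v i,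
  fun p => g.z p + h.z p + s m g.e * (g.v p.1.1 * h.v p.1.2)⟩⟩
instance : One (G n m) := ⟨⟨false, 0, 0⟩⟩
instance : Inv (G n m) := ⟨fun g => ⟨g.e, fun i => - (s m g.e * g.v i),
  fun p => - g.z p + g.v p.1.1 * g.v p.1.2⟩⟩

@[simp] lemma mul_e (g h : G n m) : (g * h).e = xor g.e h.e := rfl
@[simp] lemma mul_v (g h : G n m) (i) : (g * h).v i = g.v i + s m g.e * h.v i := rfl
@[simp] lemma mul_z (g h : G n m) (p) :
    (g * h).z p = g.z p + h.z p + s m g.e * (g.v p.1.1 * h.v p.1.2) := rfl
@[simp] lemma one_e : (1 : G n m).e = false := rfl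
@[simp] lemma one_v (i) : (1 : G n m).v i = 0 := rfl
@[simp] lemma one_z (p) : (1 : G n m).z p = 0 := rfl
@[simp] lemma inv_e (g : G n m) : (g⁻¹).e = g.e := rfl
@[simp] lemma inv_v (g : G n m) (i) : (g⁻¹).v i = - (s m g.e * g.v i) := rfl
@[simp] lemma inv_z (g : G n m) (p) : (g⁻¹).z p = - g.z p + g.v p.1.1 * g.v p.1.2 := rfl
@[simp] lemma s_false : s m false = 1 := rfl
@[simp] lemma s_true : s m true = -1 := rfl

instance : Group (G n m) := Group.ofLeftAxioms
  (fun a b c => by
    ext i
    · simp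
    · simp only [mul_v, mul_e, s_xor]; ring
    · simp only [mul_z, mul_v, mul_e, s_xor]
      have := s_sq (m := m) a.e
      linear_combination (s m b.e * b.v i.1.1 * c.v i.1.2) * this)
  (fun a => by ext i <;> simp)
  (fun a => by
    ext i
    · simp
    · simp
    · simp only [mul_z, inv_z, inv_e, inv_v, one_z]
      have := s_sq (m := m) a.e
      linear_combination (- (a.v i.1.1 * a.v i.1.2)) * this)

def eqv (n m : ℕ) : G n m ≃ Bool × (Fin n → ZMod (2^m)) × (E n → ZMod (2^m)) where
  toFun g := (g.e, g.v, g.z)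
  invFun x := ⟨x.1, x.2.1, x.2.2⟩
  left_inv _ := rfl
  right_inv _ := rfl

instance : Finite (G n m) := Finite.of_equiv _ (eqv n m).symm

lemma card_G : Nat.card (G n m) = 2 ^ (m * (n + Fintype.card (E n)) + 1) := by
  rw [Nat.card_congr (eqv n m)]
  simp only [Nat.card_eq_fintype_card, Fintype.card_prod, Fintype.card_fun,
    Fintype.card_bool, Fintype.card_fin, ZMod.card]
  rw [← pow_mul, ← pow_mul]; ring

def t : G n m := ⟨true, 0, 0⟩
def x (i : Fin n) : G n m := ⟨false, Pi.single i 1, 0⟩

lemma pow_N (g : G n m) (hg : g.e = false) (k : ℕ) :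
    (g ^ k).e = false ∧ ∀ i, (g ^ k).v i = k * g.v i := by
  induction k with
  | zero => simp
  | succ k ih =>
    rw [pow_succ]
    refine ⟨by simp [ih.1, hg], fun i => ?_⟩
    simp only [mul_v, ih.1, ih.2, s_false]; push_cast; ring

lemma central (g : G n m) (h1 : g.e = false) (h2 : ∀ i, g.v i = 0) (h : G n m) :
    g * h = h * g := by
  ext i
  · simp [h1]
  · simp [h1, h2]
  · simp [h1, h2, add_comm]

lemma half_ne (m : ℕ) : ((2 ^ (m+1) : ℕ) : ZMod (2^(m+2))) ≠ 0 := by
  rw [Ne, ZMod.natCast_eq_zero_iff]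
  intro h
  have := Nat.le_of_dvd (by positivity) h
  have h2 : 2 ^ (m+1) < 2 ^ (m+2) := Nat.pow_lt_pow_right (by norm_num) (by omega)
  omega

lemma x_noncentral (hn : 4 ≤ n) (i : Fin n) :
    ¬ ∀ h : G n (m+2), (x i) ^ (2^(m+1)) * h = h * (x i) ^ (2^(m+1)) := by
  intro H
  obtain ⟨h1, h2⟩ := pow_N (x i : G n (m+2)) rfl (2^(m+1))
  by_cases hi : 2 ≤ i.val
  · let j : Fin n := ⟨0, by omega⟩
    have hij : j ≠ i := by intro h; have := congrArg Fin.val h; simp [j] at this; omega
    have := congrArg (fun g => G.z g ⟨(j, i), by simp [j]; omega⟩) (H (x j))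
    simp only [mul_z, h1, h2, s_false] at this
    simp [x, hij, hij.symm] at this
    exact half_ne m (by push_cast; exact this)
  · let j : Fin n := ⟨3, by omega⟩
    have hij : j ≠ i := by intro h; have := congrArg Fin.val h; simp [j] at this; omega
    have := congrArg (fun g => G.z g ⟨(i, j), by simp [j]; omega⟩) (H (x j))
    simp only [mul_z, h1, h2, s_false] at this
    simp [x, hij, hij.symm] at this
    exact half_ne m (by push_cast; exact this)

lemma good (g : G n (m+2)) (H : ¬ ∀ h : G n (m+2), g ^ (2^(m+1)) * h = h * g ^ (2^(m+1))) :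
    g.e = false ∧ ∃ k, IsUnit (g.v k) := by
  have he : g.e = false := by
    by_contra he
    have he : g.e = true := by simpa using he
    apply H
    intro h
    have hc : Commute (g ^ 2) h := by
      rw [pow_two]
      exact central _ (by simp) (fun i => by simp [he]) h
    rw [pow_succ', pow_mul]
    exact (hc.pow_left _).eq
  refine ⟨he, ?_⟩
  by_contra hu
  push Not at hu
  apply H
  obtain ⟨h1, h2⟩ := pow_N g he (2^(m+1))
  refine central _ h1 fun i => ?_
  rw [h2]
  have h3 := hu i
  rw [← ZMod.natCast_zmod_val (g.v i), ZMod.isUnit_iff_coprime,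
    Nat.coprime_pow_right_iff (by omega), Nat.coprime_two_right, Nat.not_odd_iff_even] at h3
  obtain ⟨c, hc⟩ := h3
  rw [← ZMod.natCast_zmod_val (g.v i), hc, ← Nat.cast_mul, ZMod.natCast_eq_zero_iff]
  exact ⟨c, by ring⟩

lemma hom_ext {H : Type*} [Group H] (f g : G n m →* H) (ht : f t = g t)
    (hx : ∀ i, f (x i) = g (x i)) : f = g := by
  let K := f.eqLocus g
  have hxK : ∀ i, x i ∈ K := hx
  have htK : t ∈ K := ht
  have key : ∀ {ι : Type} [Fintype ι] [DecidableEq ι] (A : AddSubmonoid (ι → ZMod (2^m))),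
      (∀ i, Pi.single i 1 ∈ A) → ∀ y, y ∈ A := by
    intro ι _ _ A hA y
    rw [← Finset.univ_sum_single y]
    refine A.sum_mem fun i _ => ?_
    have : (Pi.single i (y i) : ι → ZMod (2^m)) = (y i).val • Pi.single i 1 := by
      rw [← Pi.single_smul]; simp
    rw [this]; exact A.nsmul_mem (hA i) _
  have hz : ∀ z, (⟨false, 0, z⟩ : G n m) ∈ K := by
    let A : AddSubmonoid (E n → ZMod (2^m)) :=
      { carrier := {z | (⟨false, 0, z⟩ : G n m) ∈ K}
        zero_mem' := K.one_mem
        add_mem' := fun {a b} ha hb => by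
          have := K.mul_mem ha hb
          show (⟨false, 0, a + b⟩ : G n m) ∈ K
          convert this using 1
          ext i <;> simp }
    refine key A fun p => ?_
    have := K.mul_mem (K.mul_mem (hxK p.1.1) (hxK p.1.2))
      (K.inv_mem (K.mul_mem (hxK p.1.2) (hxK p.1.1)))
    show (⟨false, 0, Pi.single p 1⟩ : G n m) ∈ K
    convert this using 1
    ext q
    · simp [x]
    · simp [x]; ring
    · obtain ⟨⟨a, b⟩, hab⟩ := p
      obtain ⟨⟨c, d⟩, hcd⟩ := q
      replace hab : a.val + 1 < b.val := hab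
      replace hcd : c.val + 1 < d.val := hcd
      simp only [x, mul_z, mul_v, mul_e, inv_z, inv_v, inv_e, Pi.single_apply, Subtype.mk.injEq,
        Prod.mk.injEq, Fin.ext_iff, Pi.zero_apply, Bool.xor_false, s_false] at *
      split_ifs <;> first | omega | simp | (simp_all; done)
  have hv : ∀ v, (⟨false, v, 0⟩ : G n m) ∈ K := by
    let A : AddSubmonoid (Fin n → ZMod (2^m)) :=
      { carrier := {v | (⟨false, v, 0⟩ : G n m) ∈ K}
        zero_mem' := K.one_mem
        add_mem' := fun {a b} ha hb => by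
          have := K.mul_mem (K.mul_mem ha hb) (hz fun p => - (a p.1.1 * b p.1.2))
          show (⟨false, a + b, 0⟩ : G n m) ∈ K
          convert this using 1
          ext i <;> simp }
    exact key A hxK
  ext ⟨e, v, z⟩
  have h1 := K.mul_mem (hv v) (hz z)
  cases e
  · have : (⟨false, v, z⟩ : G n m) ∈ K := by
      convert h1 using 1
      ext i <;> simp
    exact this
  · have : (⟨true, v, z⟩ : G n m) ∈ K := by
      convert K.mul_mem h1 htK using 1
      ext i <;> simp [t]
    exact this

def bit (c : ZMod (2^(m+2))) : Bool := decide (c.val < 2^(m+1))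

lemma bit_inj (c d : ZMod (2^(m+2))) (h : 2 * c = 2 * d) (hb : bit c = bit d) : c = d := by
  have h1 : ((2 * c.val : ℕ) : ZMod (2^(m+2))) = ((2 * d.val : ℕ) : ZMod (2^(m+2))) := by
    push_cast; simpa using h
  rw [ZMod.natCast_eq_natCast_iff'] at h1
  have hc := ZMod.val_lt c
  have hd := ZMod.val_lt d
  apply ZMod.val_injective
  have e : 2 ^ (m+2) = 2 * 2 ^ (m+1) := by ring
  simp only [bit, decide_eq_decide] at hb
  generalize c.val = a at *
  generalize d.val = b at *
  rw [e, Nat.mul_mod_mul_left, Nat.mul_mod_mul_left] at h1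
  rw [e] at hc hd
  generalize 2 ^ (m+1) = N at *
  have h2 : a % N = b % N := by omega
  by_cases ha : a < N
  · rw [Nat.mod_eq_of_lt ha, Nat.mod_eq_of_lt (hb.1 ha)] at h2; exact h2
  · have hb' : ¬ b < N := fun h => ha (hb.2 h)
    rw [Nat.mod_eq_sub_mod (by omega), Nat.mod_eq_of_lt (by omega),
      Nat.mod_eq_sub_mod (by omega : b ≥ N), Nat.mod_eq_of_lt (by omega)] at h2
    omega

lemma inv_ext (g h : G n (m+2)) (ge : g.e = true) (he : h.e = true) (g2 : g * g = 1)
    (h2 : h * h = 1) (hv : g.v = h.v) (hb : ∀ p, bit (g.z p) = bit (h.z p)) : g = h := by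
  ext p
  · rw [ge, he]
  · rw [hv]
  · refine bit_inj _ _ ?_ (hb p)
    have a := congrArg (fun u => G.z u p) g2
    have b := congrArg (fun u => G.z u p) h2
    simp only [mul_z, ge, he, one_z, hv] at a b
    linear_combination a - b

def ex (w : Fin n → ZMod (2^m)) (j : ℕ) : ZMod (2^m) := if h : j < n then w ⟨j, h⟩ else 0

lemma step (g h h' : G n m) (ge : g.e = false) (he : h.e = false) (he' : h'.e = false)
    (c : g * h = h * g) (c' : g * h' = h' * g) (k : Fin n) (hk : IsUnit (g.v k))
    (e : ∀ j : Fin 3, ex h.v (k.val + j.val - 1) = ex h'.v (k.val + j.val - 1)) :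
    h.v = h'.v := by
  have e' : ∀ l : Fin n, k.val ≤ l.val + 1 → l.val ≤ k.val + 1 → h.v l = h'.v l := by
    intro l h1 h2
    have := e ⟨l.val + 1 - k.val, by omega⟩
    have e2 : k.val + (l.val + 1 - k.val) - 1 = l.val := by omega
    simp only [e2, ex, l.2, dite_true] at this
    exact this
  have ek := e' k (by omega) (by omega)
  funext l
  by_cases h1 : k.val ≤ l.val + 1
  · by_cases h2 : l.val ≤ k.val + 1
    · exact e' l h1 h2
    · have a := congrArg (fun u => G.z u ⟨(k, l), by simp; omega⟩) c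
      have b := congrArg (fun u => G.z u ⟨(k, l), by simp; omega⟩) c'
      simp only [mul_z, ge, he, he', s_false] at a b
      apply hk.mul_left_cancel
      rw [ek] at a
      linear_combination a - b
  · have a := congrArg (fun u => G.z u ⟨(l, k), by simp; omega⟩) c
    have b := congrArg (fun u => G.z u ⟨(l, k), by simp; omega⟩) c'
    simp only [mul_z, ge, he, he', s_false] at a b
    apply hk.mul_left_cancel
    rw [ek] at a
    linear_combination b - a

open Classical in
noncomputable def piv (hn : 0 < n) (w : Fin n → ZMod (2^m)) : Fin n :=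
  if h : ∃ k, IsUnit (w k) then h.choose else ⟨0, hn⟩

lemma piv_spec (hn : 0 < n) (w : Fin n → ZMod (2^m)) (h : ∃ k, IsUnit (w k)) :
    IsUnit (w (piv hn w)) := by
  unfold piv; rw [dif_pos h]; exact h.choose_spec

lemma x_comm (i j : Fin n) (h : i.val + 1 = j.val) : (x i : G n m) * x j = x j * x i := by
  ext p
  · simp [x]
  · simp [x, add_comm]
  · obtain ⟨⟨c, d⟩, hcd⟩ := p
    replace hcd : c.val + 1 < d.val := hcd
    simp only [x, mul_z, Pi.single_apply, Fin.ext_iff, s_false] at *
    split_ifs <;> first | omega | simp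

lemma aut_t (hn : 4 ≤ n) (α : MulAut (G n (m+2))) :
    (∀ i, (α (x i)).e = false ∧ ∃ k, IsUnit ((α (x i)).v k)) ∧ (α t).e = true := by
  have h1 : ∀ i, (α (x i)).e = false ∧ ∃ k, IsUnit ((α (x i)).v k) := by
    intro i
    apply good
    intro H
    apply x_noncentral (m := m) hn i
    intro h
    apply α.injective
    simp only [map_mul, map_pow]
    exact H _
  refine ⟨h1, ?_⟩
  by_contra he
  have he : (α t).e = false := by simpa using he
  let φ : G n (m+2) →* Multiplicative (ZMod 2) := MonoidHom.mk'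
    (fun g => Multiplicative.ofAdd (if g.e then 1 else 0)) (fun a b => by
      rw [mul_e]; cases a.e <;> cases b.e <;> decide)
  have := hom_ext (φ.comp α.toMonoidHom) 1 (by simp [φ, he]) (fun i => by simp [φ, (h1 i).1])
  have h3 := DFunLike.congr_fun this (α.symm t)
  simp [φ, t] at h3

noncomputable def code (hn : 0 < n) (α : MulAut (G n (m+2))) :
    (Fin n → ZMod (2^(m+2))) × (Fin n → ZMod (2^(m+2))) × (Fin n → Fin 3 → ZMod (2^(m+2))) ×
      (E n → Bool) × (Fin n → E n → Bool) :=
  ((α t).v, (α (x ⟨0, hn⟩)).v,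
    fun i j => ex (α (x i)).v ((piv hn (α (x ⟨i.val - 1, by omega⟩)).v).val + j.val - 1),
    fun p => bit ((α t).z p), fun i p => bit ((α (t * x i)).z p))

lemma code_inj (hn : 4 ≤ n) : Function.Injective (code (m := m) (by omega : 0 < n)) := by
  intro α β h
  simp only [code, Prod.mk.injEq] at h
  obtain ⟨h1, h2, h3, h4, h5⟩ := h
  obtain ⟨a1, a2⟩ := aut_t hn α
  obtain ⟨b1, b2⟩ := aut_t hn β
  have tt : (t : G n (m+2)) * t = 1 := by ext i <;> simp [t]
  have tx : ∀ i, (t * x i : G n (m+2)) * (t * x i) = 1 := by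
    intro i
    ext p
    · simp [t, x]
    · simp [t, x]
    · obtain ⟨⟨c, d⟩, hcd⟩ := p
      replace hcd : c.val + 1 < d.val := hcd
      simp only [x, t, mul_z, mul_v, mul_e, Pi.single_apply, Fin.ext_iff, one_z,
        Pi.zero_apply] at *
      split_ifs <;> first | omega | simp
  have ht : α t = β t := inv_ext _ _ a2 b2 (by rw [← map_mul, tt, map_one])
    (by rw [← map_mul, tt, map_one]) h1 (fun p => congrFun h4 p)
  have hv : ∀ (k : ℕ) (hk : k < n), (α (x ⟨k, hk⟩)).v = (β (x ⟨k, hk⟩)).v := by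
    intro k
    induction k with
    | zero => intro _; exact h2
    | succ k ih =>
      intro hk
      have ih := ih (by omega)
      have e := congrFun h3 ⟨k+1, hk⟩
      simp only [Nat.add_sub_cancel] at e
      rw [← ih] at e
      have cx := x_comm (m := m+2) ⟨k, by omega⟩ ⟨k+1, hk⟩ rfl
      let g' : G n (m+2) := β (x ⟨k, by omega⟩)
      have c1 : α (x ⟨k, by omega⟩) * α (x ⟨k+1, hk⟩) = α (x ⟨k+1, hk⟩) * α (x ⟨k, by omega⟩) := by
        rw [← map_mul, cx, map_mul]
      have c2 : β (x ⟨k, by omega⟩) * β (x ⟨k+1, hk⟩) = β (x ⟨k+1, hk⟩) * β (x ⟨k, by omega⟩) := by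
        rw [← map_mul, cx, map_mul]
      refine step _ _ _ (a1 _).1 (a1 _).1 (b1 _).1 c1 ?_ _ (piv_spec _ _ (a1 _).2)
        (fun j => congrFun e j)
      ext p
      · simp [(a1 _).1, (b1 _).1]
      · simp [(a1 _).1, (b1 _).1, add_comm]
      · have := congrArg (fun u => G.z u p) c2
        simp only [mul_z, (a1 _).1, (b1 _).1, ih] at this ⊢
        linear_combination this
  have hx : ∀ i, α (x i) = β (x i) := by
    intro i
    have : α (t * x i) = β (t * x i) := by
      refine inv_ext _ _ (by simp [a2, (a1 i).1]) (by simp [b2, (b1 i).1])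
        (by rw [← map_mul, tx, map_one]) (by rw [← map_mul, tx, map_one]) ?_
        (fun p => congrFun (congrFun h5 i) p)
      funext j
      have := hv i.val i.2
      simp only [map_mul, mul_v, ht]
      rw [this]
    rw [map_mul, map_mul, ht] at this
    exact mul_left_cancel this
  have := hom_ext α.toMonoidHom β.toMonoidHom ht hx
  ext1 g
  exact DFunLike.congr_fun this g

lemma card_aut (hn : 4 ≤ n) : Nat.card (MulAut (G n (m+2))) ≤
    2 ^ ((m+2) * (5 * n) + Fintype.card (E n) * (n + 1)) := by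
  refine (Nat.card_le_card_of_injective _ (code_inj (m := m) hn)).trans (le_of_eq ?_)
  simp only [Nat.card_eq_fintype_card, Fintype.card_prod, Fintype.card_fun,
    Fintype.card_bool, Fintype.card_fin, ZMod.card]
  simp only [← pow_mul, ← pow_add]
  congr 1; ring

lemma card_E (k : ℕ) : k * k ≤ Fintype.card (E (2 * k + 1)) := by
  let f : Fin k × Fin k → E (2 * k + 1) := fun p =>
    ⟨(⟨p.1.val, by omega⟩, ⟨k + 1 + p.2.val, by omega⟩), by simp; omega⟩
  have : Function.Injective f := by
    intro a b h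
    simp only [f, Subtype.mk.injEq, Prod.mk.injEq, Fin.mk.injEq] at h
    ext <;> omega
  simpa using Fintype.card_le_of_injective f this

theorem result (a : ℝ) (ha : 0 < a) :
    ∃ (G : Type) (_ : Group G) (_ : Finite G), IsPGroup 2 G ∧ Group.IsNilpotent G ∧
      (Nat.card (MulAut G) : ℝ) < (Nat.totient (Nat.card G) : ℝ) ^ a := by
  obtain ⟨k, hk⟩ := exists_nat_gt (16 / a + 2)
  have hpos : 0 < 16 / a := by positivity
  have hk2 : 2 ≤ k := by
    have : (2 : ℝ) ≤ k := by linarith
    exact_mod_cast this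
  set n := 2 * k + 1 with hn
  set r := Fintype.card (E n) with hr
  set m := r * (n + 1) with hm
  have hp : IsPGroup 2 (G n (m+2)) := IsPGroup.of_card card_G
  refine ⟨G n (m+2), inferInstance, inferInstance, hp, hp.isNilpotent, ?_⟩
  have h1 := card_aut (m := m) (n := n) (by omega)
  rw [card_G, Nat.totient_prime_pow_succ Nat.prime_two]
  have h1' : (Nat.card (MulAut (G n (m+2))) : ℝ) ≤ (2:ℝ) ^ (((m+2) * (5 * n) + m : ℕ) : ℝ) := by
    rw [Real.rpow_natCast]; exact_mod_cast h1
  refine h1'.trans_lt ?_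
  have : ((2 ^ ((m+2) * (n + r)) * (2 - 1) : ℕ) : ℝ) = (2:ℝ) ^ (((m+2) * (n + r) : ℕ) : ℝ) := by
    rw [Real.rpow_natCast]; norm_num
  rw [this, ← Real.rpow_mul (by norm_num)]
  apply Real.rpow_lt_rpow_of_exponent_lt (by norm_num)
  have hE : ((k : ℝ) * k) ≤ r := by exact_mod_cast card_E k
  have hka : 16 < k * a := by
    have : 16 / a < k := by linarith
    rwa [div_lt_iff₀ ha] at this
  have hk2' : (2 : ℝ) ≤ k := by exact_mod_cast hk2
  have hn' : (n : ℝ) = 2 * k + 1 := by rw [hn]; push_cast; ring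
  push_cast
  have hm0 : (0 : ℝ) ≤ m := by positivity
  have h5 : 5 * (n : ℝ) + 1 < (n + r) * a := by
    have : (k : ℝ) * k * a ≤ (n + r) * a := by
      apply mul_le_mul_of_nonneg_right _ ha.le
      linarith
    nlinarith
  nlinarith

end Pool.Agent.Results.MP_a94181_al.SmallAut
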